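import Pool.Agent.KDD.Stmts
import Pool.Agent.Helper26_KDS.GLN
import Pool.Agent.Helper38_SZT.DSR
import Pool.Agent.Helper82_SZT.BOT
import Pool.Agent.Helper39_SZT.BOU
import Pool.Agent.Helper94_KDS.PNB

/-!
# Squad KDD, row PNE: node data at a place without triple roots
-/

set_option autoImplicit false

noncomputable section

namespace Pool.Agent.KDD.H92

open Polynomial NumberField H58Q Pool.Agent.SZT Pool.Agent.SZT.B Pool.Agent.KDT Pool.Agent.KDS
open Pool.Agent.KDS.H94 Pool.Agent.KDS.H26 Pool.Agent.KDT.H7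

/-- a permutation with two given values -/
theorem exists_perm (a b : Fin 5) (h : a ≠ b) : ∃ σ : Equiv.Perm (Fin 5), σ 0 = a ∧ σ 1 = b := by
  have h1 : (0 : Fin 5) ≠ 1 := by decide
  have h2 : (0 : Fin 5) ≠ Equiv.swap 0 a b := by
    intro h3
    apply h
    have h4 := congrArg (Equiv.swap 0 a) h3
    rwa [Equiv.swap_apply_self, Equiv.swap_apply_left] at h4
  refine ⟨(Equiv.swap 1 (Equiv.swap 0 a b)).trans (Equiv.swap 0 a), ?_, ?_⟩
  · rw [Equiv.trans_apply, Equiv.swap_apply_of_ne_of_ne h1 h2, Equiv.swap_apply_left]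
  · rw [Equiv.trans_apply, Equiv.swap_apply_left, Equiv.swap_apply_self]

theorem discr_map' {K E : Type} [Field K] [Field E] (φ : K →+* E) {f : K[X]} (hf : f.Monic)
    (h5 : f.natDegree = 5) : discr (f.map φ) = φ (discr f) := by
  have hm : (f.map φ).Monic := hf.map φ
  have hd : (f.map φ).natDegree = 5 := by rw [hf.natDegree_map, h5]
  have h1 := Pool.Agent.SZT.H39.discr_map (RingHom.id E) hm hd
  rw [Polynomial.map_id, Pool.Agent.SZT.H39.discr_map φ hf h5] at h1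
  exact h1.symm

/-- the discriminant is at most the square of one root distance -/
theorem dsc_le {E : Type} [Field E] (w : AbsoluteValue E ℝ) (θ : Fin 5 → E)
    (h : ∀ i j, w (θ i - θ j) ≤ 1) : w (dsc θ) ≤ w (θ 0 - θ 1) ^ 2 := by
  have h2 : ∀ i j, w ((θ i - θ j) ^ 2) ≤ 1 := fun i j => by
    rw [map_pow]
    exact pow_le_one₀ (w.nonneg _) (h i j)
  have h3 : ∀ (i : Fin 5) (s : Finset (Fin 5)), w (∏ j ∈ s, (θ i - θ j) ^ 2) ≤ 1 := by
    intro i s
    rw [map_prod]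
    exact Finset.prod_le_one (fun j _ => w.nonneg _) (fun j _ => h2 i j)
  unfold dsc
  rw [← Finset.mul_prod_erase Finset.univ _ (Finset.mem_univ (0 : Fin 5)), map_mul]
  have h4 : w (∏ j ∈ Finset.univ.filter (fun j => (0 : Fin 5) < j), (θ 0 - θ j) ^ 2) ≤
      w (θ 0 - θ 1) ^ 2 := by
    rw [← Finset.mul_prod_erase (Finset.univ.filter (fun j => (0 : Fin 5) < j)) _
      (show (1 : Fin 5) ∈ Finset.univ.filter (fun j => (0 : Fin 5) < j) by decide), map_mul,
      map_pow]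
    exact mul_le_of_le_one_right (pow_nonneg (w.nonneg _) 2) (h3 0 _)
  have h5 : w (∏ i ∈ Finset.univ.erase (0 : Fin 5),
      ∏ j ∈ Finset.univ.filter (fun j => i < j), (θ i - θ j) ^ 2) ≤ 1 := by
    rw [map_prod]
    exact Finset.prod_le_one (fun j _ => w.nonneg _) (fun j _ => h3 j _)
  calc _ ≤ w (∏ j ∈ Finset.univ.filter (fun j => (0 : Fin 5) < j), (θ 0 - θ j) ^ 2) * 1 :=
        mul_le_mul_of_nonneg_left h5 (w.nonneg _)
    _ ≤ _ := by rw [mul_one]; exact h4

section twin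

variable {L : Type} [NormedField L] [IsUltrametricDist L]

theorem pint_mul {p q : L[X]} (hp : PInt p) (hq : PInt q) : PInt (p * q) := by
  intro n
  rw [coeff_mul]
  refine IsUltrametricDist.norm_sum_le_of_forall_le_of_nonneg zero_le_one ?_
  rintro ⟨a, b⟩ -
  rw [norm_mul]
  exact mul_le_one₀ (hp a) (norm_nonneg _) (hq b)

omit [IsUltrametricDist L] in
theorem pint_lin {a : L} (h : ‖a‖ ≤ 1) : PInt (X - C a) := by
  intro n
  rw [coeff_sub, coeff_X, coeff_C]
  rcases n with _ | _ | n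
  · simpa using h
  · simp
  · simp

/-- the data for the square root at a twin -/
theorem twin_hh {f : L[X]} {θ : Fin 5 → L} (hT : Twin f θ) :
    PInt (hh θ) ∧ ‖(hh θ).coeff 0‖ = 1 := by
  have h2 := hT.two
  have h20 : (2 : L) ≠ 0 := by
    intro h
    rw [h, norm_zero] at h2
    exact zero_ne_one h2
  have hc : ‖ctr θ‖ ≤ 1 := by
    unfold ctr
    rw [norm_div, h2, div_one]
    exact (IsUltrametricDist.norm_add_le_max _ _).trans (max_le (hT.int 0) (hT.int 1))
  have hc0 : ‖θ 0 - ctr θ‖ < 1 := by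
    have h1 : θ 0 - ctr θ = (θ 0 - θ 1) / 2 := by
      unfold ctr
      field_simp
      ring
    rw [h1, norm_div, h2, div_one]
    exact hT.near
  have hk : ∀ k, k ≠ 0 → k ≠ 1 → ‖θ k - ctr θ‖ = 1 := by
    intro k hk0 hk1
    have h1 : θ k - ctr θ = (θ k - θ 0) + (θ 0 - ctr θ) := by ring
    have h3 := hT.far k hk0 hk1
    rw [h1, IsUltrametricDist.norm_add_eq_max_of_norm_ne_norm (by rw [h3]; exact hc0.ne'), h3,
      max_eq_left hc0.le]
  have h2' := hk 2 (by decide) (by decide)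
  have h3' := hk 3 (by decide) (by decide)
  have h4' := hk 4 (by decide) (by decide)
  refine ⟨?_, ?_⟩
  · unfold hh
    exact pint_mul (pint_mul (pint_lin h2'.le) (pint_lin h3'.le)) (pint_lin h4'.le)
  · rw [Polynomial.coeff_zero_eq_eval_zero]
    unfold hh
    rw [eval_mul, eval_mul, eval_sub, eval_sub, eval_sub, eval_X, eval_C, eval_C, eval_C,
      norm_mul, norm_mul, zero_sub, zero_sub, zero_sub, norm_neg, norm_neg, norm_neg, h2', h3',
      h4', mul_one, mul_one]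

end twin

/-- the numbering with a given close pair first -/
theorem twin_of {Ω L : Type} [Field Ω] [IsAlgClosed Ω] [NormedField L] [IsUltrametricDist L]
    [CompleteSpace L] (sqr : SqrStmt)
    (j : Ω →+* L) (w : AbsoluteValue Ω ℝ) (hw : ∀ x, w x = ‖j x‖) (F : Polynomial Ω)
    (θ : Fin 5 → Ω) (h2 : w 2 = 1) (hF : F = ∏ k, (X - C (θ k))) (hinj : Function.Injective θ)
    (hint : ∀ k, w (θ k) ≤ 1)
    (hfar : ∀ a b c, a ≠ b → a ≠ c → b ≠ c → w (θ a - θ b) < 1 → w (θ a - θ c) = 1)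
    (a b : Fin 5) (hab : a ≠ b) (hcl : w (θ a - θ b) < 1) :
    ∃ θ' : Fin 5 → Ω, θ' 0 = θ a ∧ θ' 1 = θ b ∧ F = ∏ k, (X - C (θ' k)) ∧
      (∀ k, w (θ' k) ≤ 1) ∧ Twin (F.map j) (fun k => j (θ' k)) ∧
      ∃ s : ℕ → L, Sq (hh (fun k => j (θ' k))) s := by
  obtain ⟨σ, hσ0, hσ1⟩ := exists_perm a b hab
  obtain ⟨θ', hθ'⟩ : ∃ θ' : Fin 5 → Ω, θ' = fun k => θ (σ k) := ⟨_, rfl⟩
  have h0 : θ' 0 = θ a := by rw [hθ']; exact congrArg θ hσ0
  have h1 : θ' 1 = θ b := by rw [hθ']; exact congrArg θ hσ1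
  have hF' : F = ∏ k, (X - C (θ' k)) := by
    rw [hF, hθ']
    exact (Equiv.prod_comp σ (fun k => X - C (θ k))).symm
  have hint' : ∀ k, w (θ' k) ≤ 1 := fun k => by rw [hθ']; exact hint _
  have hT : Twin (F.map j) (fun k => j (θ' k)) := by
    refine ⟨?_, ?_, ?_, ?_, ?_, ?_⟩
    · rw [← h2, hw, map_ofNat]
    · rw [hF', Polynomial.map_prod]
      refine Finset.prod_congr rfl fun k _ => ?_
      rw [Polynomial.map_sub, Polynomial.map_X, Polynomial.map_C]
    · intro k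
      rw [← hw]
      exact hint' k
    · intro k l hkl
      have h3 := j.injective hkl
      rw [hθ'] at h3
      exact σ.injective (hinj h3)
    · rw [← map_sub, ← hw, h0, h1]
      exact hcl
    · intro k hk0 hk1
      rw [← map_sub, ← hw, h0, hθ']
      change w (θ (σ k) - θ a) = 1
      rw [← hfar a b (σ k) hab (fun h => hk0 (σ.injective (by rw [hσ0, h])))
        (fun h => hk1 (σ.injective (by rw [hσ1, h]))) hcl]
      exact w.map_sub _ _
  refine ⟨θ', h0, h1, hF', hint', hT, ?_⟩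
  obtain ⟨hPI, hh0⟩ := twin_hh hT
  obtain ⟨e, he0⟩ : ∃ e : Ω, e = (θ' 0 + θ' 1) / 2 := ⟨_, rfl⟩
  have he : ctr (fun k => j (θ' k)) = j e := by
    rw [he0]
    change (j (θ' 0) + j (θ' 1)) / 2 = j ((θ' 0 + θ' 1) / 2)
    rw [map_div₀, map_add, map_ofNat]
  obtain ⟨z, hz⟩ := IsAlgClosed.exists_pow_nat_eq ((e - θ' 2) * (e - θ' 3) * (e - θ' 4)) (n := 2)
    (by norm_num)
  have hw' : (hh (fun k => j (θ' k))).coeff 0 = j ((e - θ' 2) * (e - θ' 3) * (e - θ' 4)) := by
    rw [Polynomial.coeff_zero_eq_eval_zero]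
    unfold hh
    rw [eval_mul, eval_mul, eval_sub, eval_sub, eval_sub, eval_X, eval_C, eval_C, eval_C, he,
      map_mul, map_mul, map_sub, map_sub, map_sub]
    ring
  have hz2 : (j z) ^ 2 = (hh (fun k => j (θ' k))).coeff 0 := by rw [hw', ← hz, map_pow]
  refine sqr L (hh (fun k => j (θ' k))) (j z) hT.two hPI hz2 ?_
  have h3 : ‖j z‖ ^ 2 = 1 := by rw [← norm_pow, hz2, hh0]
  exact (pow_eq_one_iff_of_nonneg (norm_nonneg _) (by norm_num)).mp h3

/-- the node data of the shifted polynomial -/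
theorem ndc_of {Ω : Type} [Field Ω] (w : AbsoluteValue Ω ℝ) (hwna : IsNonarchimedean w)
    (F : Polynomial Ω) (θ : Fin 5 → Ω) (hF : F = ∏ k, (X - C (θ k))) (hθO : ∀ k, w (θ k) ≤ 1)
    (δ : ℝ) (hδ : 0 < δ) (h01 : w (θ 0 - θ 1) ≤ Real.exp (-δ / 2)) :
    NdC w (F.comp (X + C (θ 0))) δ := by
  have hgen := comp_prod θ (F.comp (X + C (θ 0))) (by rw [hF])
  have hdO : ∀ k, θ 0 - θ k ∈ Ow w hwna := fun k =>
    (Ow w hwna).sub_mem (hθO 0) (hθO k)
  obtain ⟨g0, g1, g2, g3, g4⟩ := coeffs_quintic _ _ _ _ _ hgen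
  have d1 := hdO 1
  have d2 := hdO 2
  have d3 := hdO 3
  have d4 := hdO 4
  refine ⟨hwna, hδ, g0, ?_, ?_, ?_, ?_⟩
  · rw [g1, map_mul, map_mul, map_mul]
    have e2 : w (θ 0 - θ 2) ≤ 1 := d2
    have e3 : w (θ 0 - θ 3) ≤ 1 := d3
    have e4 : w (θ 0 - θ 4) ≤ 1 := d4
    refine le_trans ?_ h01
    have n1 := w.nonneg (θ 0 - θ 1)
    have n2 := w.nonneg (θ 0 - θ 2)
    have n3 := w.nonneg (θ 0 - θ 3)
    have n4 := w.nonneg (θ 0 - θ 4)
    exact (mul_le_of_le_one_right (mul_nonneg (mul_nonneg n1 n2) n3) e4).trans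
      ((mul_le_of_le_one_right (mul_nonneg n1 n2) e3).trans (mul_le_of_le_one_right n1 e2))
  · rw [g2, ← mem_Ow w hwna]
    exact (Ow w hwna).add_mem ((Ow w hwna).add_mem ((Ow w hwna).add_mem
      ((Ow w hwna).mul_mem ((Ow w hwna).mul_mem d1 d2) d3)
      ((Ow w hwna).mul_mem ((Ow w hwna).mul_mem d1 d2) d4))
      ((Ow w hwna).mul_mem ((Ow w hwna).mul_mem d1 d3) d4))
      ((Ow w hwna).mul_mem ((Ow w hwna).mul_mem d2 d3) d4)
  · rw [g3, ← mem_Ow w hwna]
    exact (Ow w hwna).add_mem ((Ow w hwna).add_mem ((Ow w hwna).add_mem ((Ow w hwna).add_mem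
      ((Ow w hwna).add_mem ((Ow w hwna).mul_mem d1 d2)
        ((Ow w hwna).mul_mem d1 d3)) ((Ow w hwna).mul_mem d1 d4))
      ((Ow w hwna).mul_mem d2 d3)) ((Ow w hwna).mul_mem d2 d4))
      ((Ow w hwna).mul_mem d3 d4)
  · rw [g4, ← mem_Ow w hwna]
    exact (Ow w hwna).add_mem ((Ow w hwna).add_mem ((Ow w hwna).add_mem d1 d2) d3) d4

/-- an integral unipotent shift does not increase the bound -/
theorem uni_le {Ω : Type} [Field Ω] (w : AbsoluteValue Ω ℝ) (hwna : IsNonarchimedean w)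
    (c : Fin 6 → Ω) (hc : ∀ k, w (c k) ≤ 1) (u : Fin 4 → Ω) (R : ℝ) (hu : ∀ l, w (u l) ≤ R) :
    ∀ l, w (uni c u l) ≤ R := by
  have hadd : ∀ x y : Ω, w x ≤ R → w y ≤ R → w (x + y) ≤ R := fun x y hx hy =>
    (hwna x y).trans (max_le hx hy)
  have hmul : ∀ k l, w (c k * u l) ≤ R := by
    intro k l
    rw [map_mul]
    exact (mul_le_of_le_one_left (w.nonneg _) (hc k)).trans (hu l)
  intro l
  fin_cases l
  · exact hu 0
  · exact hadd _ _ (hu 1) (hmul 0 0)
  · exact hadd _ _ (hadd _ _ (hu 2) (hmul 1 1)) (hmul 2 0)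
  · exact hadd _ _ (hadd _ _ (hadd _ _ (hu 3) (hmul 3 2)) (hmul 4 1)) (hmul 5 0)

theorem shc_le {Ω : Type} [Field Ω] (w : AbsoluteValue Ω ℝ) (hwna : IsNonarchimedean w)
    (F : Polynomial Ω) (hF : ∀ n, w (F.coeff n) ≤ 1) (a : Ω) (ha : w a ≤ 1) :
    ∀ k, w (shc F a k) ≤ 1 := by
  have a0 : a ∈ Ow w hwna := ha
  have c3 : F.coeff 3 ∈ Ow w hwna := hF 3
  have c4 : F.coeff 4 ∈ Ow w hwna := hF 4
  have hn : ∀ n : ℕ, (n : Ω) ∈ Ow w hwna := fun n => natCast_mem _ n
  have h2 : (2 : Ω) ∈ Ow w hwna := by exact_mod_cast hn 2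
  have h4 : (4 : Ω) ∈ Ow w hwna := by exact_mod_cast hn 4
  intro k
  rw [← mem_Ow w hwna]
  fin_cases k
  · exact (Ow w hwna).mul_mem ((Ow w hwna).neg_mem h2) a0
  · exact (Ow w hwna).neg_mem a0
  · exact (Ow w hwna).pow_mem a0 2
  · exact (Ow w hwna).mul_mem ((Ow w hwna).neg_mem h2) a0
  · exact (Ow w hwna).pow_mem a0 2
  · exact (Ow w hwna).neg_mem ((Ow w hwna).add_mem ((Ow w hwna).add_mem
      ((Ow w hwna).mul_mem h4 ((Ow w hwna).pow_mem a0 3))
      ((Ow w hwna).mul_mem ((Ow w hwna).mul_mem h2 c4) ((Ow w hwna).pow_mem a0 2)))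
      ((Ow w hwna).mul_mem c3 a0))

/-- **Row PNE.** Node data at a place without triple roots. -/
theorem pne (hRtc : RtcStatement) (hTka : TkaStatement) (hNsw : NswStatement)
    (hLpo : LpoStatement) (hBas : BasStatement) (hNcd : NcdStatement) (hPlg : PlgStatement)
    (hDpb : KDS.DpbStatement) (hDvb : KDS.DvbStatement) (hKqu : KDT.KquStatement)
    (hGmp : KDT.GmpStatement) (cpl : SZT.B.CplStmt) (sqr : SZT.B.SqrStmt) : PneStatement := by
  intro K _ _ vv f n m₀ hf h5 hsq hCF hn hdis0 hm₀ I hI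
  have hdom : IsDomain (Q K f) := isDomain (g := 2) (by rw [h5])
  have h2K : (2 : K) ≠ 0 := two_ne_zero
  -- the absolute value
  obtain ⟨v, hv⟩ : ∃ v : AbsoluteValue K ℝ, v = vv.val := ⟨_, rfl⟩
  obtain ⟨c, hcdef⟩ : ∃ c : ℝ, c = (Ideal.absNorm vv.maximalIdeal.asIdeal : ℝ)⁻¹ := ⟨_, rfl⟩
  have hq : (1 : ℝ) < (Ideal.absNorm vv.maximalIdeal.asIdeal : ℝ) := by
    exact_mod_cast HeightOneSpectrum.one_lt_absNorm vv.maximalIdeal
  have hc : 0 < c := by rw [hcdef]; positivity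
  have hc1 : c < 1 := by rw [hcdef]; exact inv_lt_one_of_one_lt₀ hq
  have hvv : ∀ x : K, vv x = v x := by
    intro x
    rw [hv]
    rfl
  have hna : IsNonarchimedean v := by
    rw [hv]
    exact fun x y => FinitePlace.add_le vv x y
  have hV : ∀ x : K, x ≠ 0 → ∃ k : ℤ, v x = c ^ k := by
    intro x hx
    rw [← hvv, hcdef]
    exact Pool.Agent.SZT.H82.value_group vv x hx
  have hdis : v (discr f) = c ^ n := by
    rw [← hvv, hcdef, inv_pow]
    exact eq_inv_of_mul_eq_one_left hdis0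
  have hCF' : CubeFree v f := by rw [hv]; exact hCF
  have hdn : discr f ≠ 0 := by
    intro h
    rw [h, map_zero] at hdis
    exact (pow_pos hc n).ne hdis
  have hvd0 : 0 < v (discr f) := by rw [hdis]; exact pow_pos hc n
  have hvd1 : v (discr f) < 1 := by rw [hdis]; exact pow_lt_one₀ hc.le hc1 hn.ne'
  have hnt : ∃ x : K, x ≠ 0 ∧ v x ≠ 1 := ⟨discr f, hdn, hvd1.ne⟩
  obtain ⟨Ω, L, _, _, _, _, _, i, j, hij⟩ := cpl K v hna hnt
  let w : AbsoluteValue Ω ℝ :=
    { toFun := fun x => ‖j x‖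
      map_mul' := fun x y => by rw [map_mul, norm_mul]
      nonneg' := fun x => norm_nonneg _
      eq_zero' := fun x => by rw [norm_eq_zero, map_eq_zero]
      add_le' := fun x y => by rw [map_add]; exact norm_add_le _ _ }
  have hwx : ∀ x, w x = ‖j x‖ := fun x => rfl
  have hwi : ∀ x, w (i x) = v x := fun x => hij x
  have hwna : IsNonarchimedean w := by
    intro x y
    rw [hwx, hwx, hwx, map_add]
    exact IsUltrametricDist.norm_add_le_max _ _
  clear_value w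
  have hwi' : ∀ x, w (i x) = vv x := fun x => by rw [hwi, hvv]
  obtain ⟨φ, hφ⟩ : ∃ φ : K →+* L, φ = j.comp i := ⟨_, rfl⟩
  have hφx : ∀ x : K, φ x = j (i x) := fun x => by rw [hφ]; rfl
  have hφv : ∀ x : K, ‖φ x‖ = v x := by
    intro x
    rw [hφx, hij]
  have hmm : ∀ p : K[X], (p.map i).map j = p.map φ := by
    intro p
    rw [Polynomial.map_map, hφ]
  have hspl : ∀ p : K[X], (p.map φ).Splits := by
    intro p
    rw [← hmm]
    exact (IsAlgClosed.splits (p.map i)).map j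
  have hw2 : w 2 = 1 := by
    have h1 : (2 : Ω) = i 2 := by rw [map_ofNat]
    rw [h1, hwi]
    exact hCF'.1
  obtain ⟨θ, hfac, hinj, hθO, hfar, a₀, b₀, hab₀, hcl₀, h4⟩ :=
    hRtc K Ω i v w f hwna hwi hf h5 hsq hCF' hvd1
  obtain ⟨F, hF⟩ : ∃ F : Polynomial Ω, F = f.map i := ⟨_, rfl⟩
  have hFm : F.Monic := by rw [hF]; exact hf.map i
  have hF5 : F.natDegree = 5 := by rw [hF, hf.natDegree_map, h5]
  have hFc : ∀ n, w (F.coeff n) ≤ 1 := by
    intro n
    rw [hF, coeff_map, hwi]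
    exact hCF'.2.1 n
  have hfac' : F = ∏ k, (X - C (θ k)) := by rw [hF, hfac]
  obtain ⟨θ₀, h00, h01, hF0, hθ0O, -, -⟩ :=
    twin_of sqr j w hwx F θ hw2 hfac' hinj hθO hfar a₀ b₀ hab₀ hcl₀
  have hroot : F.IsRoot (θ₀ 0) := by
    rw [hF0, Polynomial.IsRoot.def, eval_prod]
    refine Finset.prod_eq_zero (Finset.mem_univ 0) ?_
    rw [eval_sub, eval_X, eval_C, sub_self]
  have hlog : Real.log (v (discr f)) < 0 := Real.log_neg hvd0 hvd1
  have hw01 : w (θ₀ 0 - θ₀ 1) ≤ Real.exp (-(-(1 / 2) * Real.log (vv (discr f))) / 2) := by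
    refine (pow_le_pow_iff_left₀ (w.nonneg _) (Real.exp_pos _).le (n := 4) (by norm_num)).1 ?_
    rw [h00, h01, ← Real.exp_nat_mul]
    refine h4.trans (le_of_eq ?_)
    rw [hvv]
    have h1 : ((4 : ℕ) : ℝ) * (-(-(1 / 2) * Real.log (v (discr f))) / 2) =
        Real.log (v (discr f)) := by
      push_cast
      ring
    rw [h1, Real.exp_log hvd0]
  refine ⟨Ω, inferInstance, w, i, θ₀ 0, hwi', ?_, ?_, ?_⟩
  · rw [← hF]; exact hroot
  · rw [← hF]
    exact ndc_of w hwna F θ₀ hF0 hθ0O _ (by rw [hvv]; linarith) hw01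
  · intro t k M A B U W hH
    rw [← hF]
    refine uni_le w hwna (shc F (θ₀ 0)) (shc_le w hwna F hFc _ (hθ0O 0)) _ _ ?_
    -- the coordinates
    have hkum : ∀ a, (fun l => i (kum f (A a) (B a) l)) = kum F ((A a).map i) ((B a).map i) := by
      intro a
      rw [hF]
      exact funext fun l => kum_map i f (A a) (B a) l
    have hq0 : ∀ a ≤ t, quart F (fun l => i (kum f (A a) (B a) l)) = 0 := by
      intro a ha
      have hg := (hH a ha).1.1
      rw [hF, ← (hKqu.2 K Ω i f 0 0).2, hKqu.1 K f _ _ hf h5 hg.toMum hg.two, map_zero]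
    have hfin := hNcd Ω w F t (fun a l => i (kum f (A a) (B a) l))
      (fun a => i (dup f (kum f (A a) (B a)) 0)) (fun a => Lv vv f (A a) (U a) M)
      (-(1 / 2) * Real.log (vv (discr f))) ?_ ?_ ?_
    · intro l
      refine (hfin l).trans (le_of_eq ?_)
      congr 1
      ring
    · intro a ha
      obtain ⟨hVG, hGen, hcl⟩ := hH a ha.le
      obtain ⟨hVG', hGen', hcl'⟩ := hH (a + 1) ha
      have hc2 : SameCl (MI f (A (a + 1)) (B (a + 1))) (MI f (A a) (B a) ^ 2) := by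
        have h3 : SameCl (MI f (A a) (B a) ^ 2) (I ^ (m₀ * (2 ^ (a + 1) * k))) := by
          have h4 := gl_mul hcl hcl
          rw [← pow_two, ← pow_add] at h4
          have h5' : m₀ * (2 ^ a * k) + m₀ * (2 ^ a * k) = m₀ * (2 ^ (a + 1) * k) := by
            ring
          rwa [h5'] at h4
        exact gl_trans hcl' (gl_symm h3)
      obtain ⟨mm, V, hDbl, hId, hd1, hd2, hd3⟩ := hDpb K f (A a) (B a) (A (a + 1))
        (B (a + 1)) h2K hf h5 hsq hVG.1 hVG'.1.toMum hVG'.1.two hc2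
      refine ⟨?_, ?_, ?_⟩
      · change i (dup f (kum f (A a) (B a)) 0) ≠ 0
        rwa [Ne, map_eq_zero]
      · funext l
        rw [hF, dup_map, hd3 l, map_mul]
        rfl
      · have hL := hDvb K f (A a) (B a) (A (a + 1)) (B (a + 1)) V (U a) (W a)
          (U (a + 1)) (W (a + 1)) mm M h2K hf h5 hsq hVG.1 hVG'.1 hDbl hId hGen hGen' vv.val
        have hne : mm * resultant (A a) (2 * B a) ≠ 0 := by
          intro h
          rw [h] at hd1
          exact hd2 (by rw [hd1]; ring)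
        have hm0 : vv.val mm ≠ 0 := by
          rw [Ne, AbsoluteValue.eq_zero]
          exact left_ne_zero_of_mul hne
        have hr0 : vv.val (resultant (A a) (2 * B a)) ≠ 0 := by
          rw [Ne, AbsoluteValue.eq_zero]
          exact right_ne_zero_of_mul hne
        have hlog : Real.log (w (i (dup f (kum f (A a) (B a)) 0))) =
            2 * Real.log (vv.val mm) + 2 * Real.log (vv.val (resultant (A a) (2 * B a))) := by
          rw [hwi, hv, hd1, map_pow, map_mul, Real.log_pow, Real.log_mul hm0 hr0]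
          push_cast
          ring
        change Lv vv f (A (a + 1)) (U (a + 1)) M = 4 * Lv vv f (A a) (U a) M -
          Real.log (w (i (dup f (kum f (A a) (B a)) 0)))
        rw [hlog]
        refine hL.trans ?_
        change 4 * Lv vv f (A a) (U a) M - _ - _ = 4 * Lv vv f (A a) (U a) M - _
        ring
    · -- no cancellation
      intro a ha m
      by_contra hcon
      push Not at hcon
      obtain ⟨hVG, hGen, hcl⟩ := hH a ha.le
      obtain ⟨a', b', hab', hcl', l, hl2, hl3⟩ := hBas Ω w θ (fun l => i (kum f (A a) (B a) l)) m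
        hwna hw2 hθO hfar ⟨a₀, b₀, hab₀, hcl₀⟩ (by rw [← hfac']; exact hq0 a ha.le)
        (fun l => by rw [← hfac']; exact hcon l)
      obtain ⟨θ', h0', h1', hF', hθO', hT, s, hs⟩ :=
        twin_of sqr j w hwx F θ hw2 hfac' hinj hθO hfar a' b' hab' hcl'
      obtain ⟨θL, hθL⟩ : ∃ θL : Fin 5 → L, θL = fun k => j (θ' k) := ⟨_, rfl⟩
      have hT' : Twin (f.map φ) θL := by
        rw [hθL, ← hmm, ← hF]
        exact hT
      have hs' : Sq (hh θL) s := by rw [hθL]; exact hs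
      obtain ⟨s₁, A₁, B₁, hM₁, hd₁, hs₁, hk⟩ :=
        hTka K L φ f θL s h2K hsq h5 hT' hs' hspl I hI
      have hcn : c ^ n ≤ ‖θL 0 - θL 1‖ ^ 2 := by
        have h1 : w (dsc θ') = v (discr f) := by
          rw [← hwi, ← discr_map' i hf h5, ← hF, hF']
          rcases Pool.Agent.SZT.H38.dsr Ω θ' with h | h
          · rw [h]
          · rw [h, AbsoluteValue.map_neg]
        have h2 := dsc_le w θ' (fun i j => (Ow w hwna).sub_mem (hθO' i) (hθO' j))
        rw [h1, hdis, hwx, map_sub] at h2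
        rw [hθL]
        exact h2
      obtain ⟨j₁, hj₁⟩ := hNsw K L φ f A₁ B₁ θL s c n m₀ hc hc1
        (fun x hx => by rw [hφv]; exact hV x hx) hT' hs' hn hcn hm₀ hM₁ hd₁ (hspl A₁)
      obtain ⟨j₂, hj₂⟩ := hk (m₀ * (2 ^ a * k)) (A a) (B a) hVG.1.toMum hcl
      obtain ⟨hMum, -, -, -, -⟩ := hGmp K Ω i f (A a) (B a) (U a) (W a) M hf
      rw [← h0', ← hfac', hkum a] at hl2 hl3
      refine hLpo Ω L j w F θ' s hwx hT hs hFm hF5 ((A a).map i) ((B a).map i) l
        (by rw [hF]; exact hMum hVG.1.toMum) (by rw [natDegree_map]; exact hVG.1.two) hl2 hl3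
        (2 ^ a * k * j₁ + j₂) ?_
      rw [← hθL, hmm, hmm, hj₂]
      rw [hs₁] at *
      push_cast
      rw [← hj₁]
      ring
    · intro l
      obtain ⟨hVG, hGen, -⟩ := hH t le_rfl
      change w (i (kum f (A t) (B t) l)) ≤ _
      rw [hwi']
      refine (hPlg K vv f hf h5 hsq (fun n => by rw [hvv]; exact hCF'.2.1 n)
        (by rw [hvv]; exact hCF'.1) (A t) (B t) (U t) (W t) M hVG hGen l).trans (le_of_eq ?_)
      congr 1
      ring

end Pool.Agent.KDD.H92
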